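import Pool.Agent.H.MP_e60a9a_co.C

set_option autoImplicit false

namespace Pool.Agent.Results.MP_e60a9a_co.Q2Neg

open Finset Pool.Agent.H.MP_e60a9a_co

def aL : List ℤ := [0, 597793996800, 73236035174400, 2004440894668800, 19314619527168000,
  79659352571904000, 154554571254988800, 146689299490406400, 68260823569612800, 15222991343616000,
  1568059637760000, 68516388864000, 804722688000]

lemma c1 : ∀ r < 8, ∀ s < 8 - r, isZ (kaL 8 r s) = true := by decide +kernel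

lemma c2 : vl (1 : ℤ) (leL 8) ≠ 0 := by decide +kernel

lemma c3 : isZ (.add (.mul (.lin (Nat.factorial 16 : ℕ) 0) (.mul (hookL 8) (tL 7 8)))
    (.mul (.lin (-1) 0) (.mul (leL 8) (lsum 16 fun k =>
      .mul (.lin (aL.getD k 0) 0) (lprod 16 fun i => .lin (k - i) 1))))) = true := by
  decide +kernel

lemma c4 : (tri (-11) aL).2.1 ^ 2 < (tri (-11) aL).1 * (tri (-11) aL).2.2 := by decide +kernel

theorem result : ∃ (n : ℕ) (μ l : YoungDiagram) (P : Λ) (a : ℕ → ℚ),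
    1 ≤ n ∧ μ.card = n ∧ l.card = n ∧ (∀ Q, IsJackP α⁻¹ n μ Q ↔ Q = P) ∧
    jackSchur μ l P =
      ∑ k ∈ range n, (a k : K) * ((∏ i ∈ range n, (α + k - i)) / n.factorial) ∧
    (∃ k < n, a k ≠ 0) ∧ ∃ z : ℂ, z.im ≠ 0 ∧ ∑ k ∈ range n, (a k : ℂ) * z ^ k = 0 := by
  obtain ⟨P, h1, h2⟩ := main 14 7 8 rfl rfl c1 c2
  obtain ⟨z, z1, z2⟩ := nonreal aL _ c4
  refine ⟨16, rect 2 8, rect 8 2, P, fun k => (aL.getD k 0 : ℤ), by omega, rfl, rfl, h1, ?_, ⟨1, by omega, by simp [aL]⟩, z, z1, ?_⟩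
  · have h3 := vl_eq α c3
    have f0 : ((Nat.factorial 16 : ℕ) : K) ≠ 0 := Nat.cast_ne_zero.2 (Nat.factorial_ne_zero _)
    rw [vl, ← h2, vl, vl, vl_sum] at h3
    simp only [vl_prod, vl, Int.cast_zero, mul_zero, add_zero, Int.cast_natCast, Int.cast_sub,
      Int.cast_one, mul_one] at h3
    simp only [Rat.cast_intCast, ← mul_div_assoc, ← sum_div]
    rw [eq_div_iff f0]
    refine mul_left_cancel₀ (vl_ne c2) (Eq.trans (by ring) (h3.trans ?_))
    congr 1
    exact sum_congr rfl fun k _ => congrArg _ (prod_congr rfl fun i _ => by ring)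
  · rw [ev_range z aL 16 (by simp [aL])] at z2
    simpa only [Rat.cast_intCast] using z2

end Pool.Agent.Results.MP_e60a9a_co.Q2Neg
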